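import Mathlib

namespace Pool.Agent.MP_a3b474_co

/-- An adaptive strategy for `N` coins and three scales: either name a coin, or put the coins of
`L` on the left pan and those of `R` on the right pan of scale `s` and go on with `left`, `right`
or `balance` according to the outcome shown (left lighter, right lighter, balance). -/
inductive Strategy (N : ℕ) : Type
  | guess (c : Fin N) : Strategy N
  | weigh (s : Fin 3) (L R : Finset (Fin N)) (left right balance : Strategy N) : Strategy N

/-- Every weighing uses two disjoint sets of coins of equal size. -/
def Strategy.Legal {N : ℕ} : Strategy N → Prop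
  | .guess _ => True
  | .weigh _ L R left right balance =>
      Disjoint L R ∧ L.card = R.card ∧ left.Legal ∧ right.Legal ∧ balance.Legal

/-- `T.Finds c b k`: if `c` is the light coin and `b` is the broken scale, then, whatever the broken
scale shows, `T` names `c` after at most `k` weighings. -/
def Strategy.Finds {N : ℕ} (c : Fin N) (b : Fin 3) : Strategy N → ℕ → Prop
  | .guess d, _ => d = c
  | .weigh _ _ _ _ _ _, 0 => False
  | .weigh s L R left right balance, k + 1 =>
      if s = b then left.Finds c b k ∧ right.Finds c b k ∧ balance.Finds c b k
      else if c ∈ L then left.Finds c b k
      else if c ∈ R then right.Finds c b k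
      else balance.Finds c b k

/-- The least worst-case number of weighings of a successful strategy for `3 ^ (2 n)` coins. -/
noncomputable def w (n : ℕ) : ℕ :=
  sInf {k : ℕ | ∃ T : Strategy (3 ^ (2 * n)), T.Legal ∧ ∀ c b, T.Finds c b k}

end Pool.Agent.MP_a3b474_co
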