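import Pool.Agent.MP_a3b474_co.Defs

namespace Pool.Agent.MP_a3b474_co

open Finset

variable {N : ℕ}

/-- `T` handles the position with uncontradicted coins `A` and suspects `B b` of the scale `b`. -/
def Handles (T : Strategy N) (t : ℕ) (A : Finset (Fin N)) (B : Fin 3 → Finset (Fin N)) : Prop :=
  (∀ b, Disjoint A (B b)) ∧ (∀ b b', b ≠ b' → Disjoint (B b) (B b')) ∧
    ∀ c b, (c ∈ A ∨ c ∈ B b) → T.Finds c b t

/-- The three bins of a weighing. -/
def bin (L R : Finset (Fin N)) : Fin 3 → Finset (Fin N)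
  | 0 => L
  | 1 => R \ L
  | 2 => univ \ (L ∪ R)

theorem sum_bin (L R S : Finset (Fin N)) : ∑ o, (S ∩ bin L R o).card = S.card := by
  rw [Fin.sum_univ_three]
  simp only [bin]
  rw [← card_union_of_disjoint, ← card_union_of_disjoint]
  · congr 1
    ext c
    simp only [mem_union, mem_inter, mem_sdiff, mem_univ, true_and]
    tauto
  · rw [disjoint_left]
    intro c
    simp only [mem_union, mem_inter, mem_sdiff, mem_univ, true_and]
    tauto
  · rw [disjoint_left]
    intro c
    simp only [mem_inter, mem_sdiff]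
    tauto

/-- The suspects after a weighing on scale `s` whose outcome points to the bin `P`. -/
def nextB (s : Fin 3) (P A : Finset (Fin N)) (B : Fin 3 → Finset (Fin N)) (b : Fin 3) :
    Finset (Fin N) :=
  if b = s then B b ∪ (A \ P) else B b ∩ P

theorem handles_child {s : Fin 3} {L R : Finset (Fin N)} {l r e : Strategy N} {t : ℕ}
    {A : Finset (Fin N)} {B : Fin 3 → Finset (Fin N)}
    (h : Handles (.weigh s L R l r e) (t + 1) A B) (o : Fin 3) :
    Handles (![l, r, e] o) t (A ∩ bin L R o) (nextB s (bin L R o) A B) := by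
  obtain ⟨h1, h2, h3⟩ := h
  refine ⟨?_, ?_, ?_⟩
  · intro b
    have := disjoint_left.1 (h1 b)
    rw [disjoint_left]
    intro c
    unfold nextB
    split_ifs
    · simp only [mem_union, mem_inter, mem_sdiff]
      have := @this c
      tauto
    · simp only [mem_inter]
      have := @this c
      tauto
  · intro b b' hb
    have k1 := disjoint_left.1 (h1 b)
    have k2 := disjoint_left.1 (h1 b')
    have k3 := disjoint_left.1 (h2 b b' hb)
    rw [disjoint_left]
    intro c
    have k1 := @k1 c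
    have k2 := @k2 c
    have k3 := @k3 c
    unfold nextB
    split_ifs with i1 i2 i2
    · exact absurd (i1.trans i2.symm) hb
    · simp only [mem_union, mem_inter, mem_sdiff]; tauto
    · simp only [mem_union, mem_inter, mem_sdiff]; tauto
    · simp only [mem_inter]; tauto
  · intro c b hc
    by_cases hb : b = s
    · subst hb
      have hc' : c ∈ A ∨ c ∈ B b := by
        simp only [nextB, if_true, mem_union, mem_inter, mem_sdiff] at hc
        tauto
      have := h3 c b hc'
      simp only [Strategy.Finds, if_true] at this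
      fin_cases o
      · exact this.1
      · exact this.2.1
      · exact this.2.2
    · have hc' : (c ∈ A ∨ c ∈ B b) ∧ c ∈ bin L R o := by
        simp only [nextB, if_neg hb, mem_inter] at hc
        tauto
      have := h3 c b hc'.1
      simp only [Strategy.Finds, if_neg (Ne.symm hb)] at this
      have hin := hc'.2
      fin_cases o
      · simp only [bin] at hin
        rw [if_pos hin] at this
        exact this
      · simp only [bin, mem_sdiff] at hin
        rw [if_neg hin.2, if_pos hin.1] at this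
        exact this
      · simp only [bin, mem_sdiff, mem_univ, mem_union, true_and, not_or] at hin
        rw [if_neg hin.1, if_neg hin.2] at this
        exact this

/-- The numbers of a position that some strategy handles in `t` weighings. -/
def Feas (N t a : ℕ) (b : Fin 3 → ℕ) : Prop :=
  ∃ (T : Strategy N) (A : Finset (Fin N)) (B : Fin 3 → Finset (Fin N)),
    Handles T t A B ∧ A.card = a ∧ ∀ i, (B i).card = b i

theorem feas_cases {t a : ℕ} {b : Fin 3 → ℕ} (h : Feas N t a b) :
    a + b 0 + b 1 + b 2 ≤ 1 ∨ ∃ t' s, t = t' + 1 ∧ ∃ (a' : Fin 3 → ℕ) (b' : Fin 3 → Fin 3 → ℕ),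
      ∑ o, a' o = a ∧ (∀ u, u ≠ s → ∑ o, b' o u = b u) ∧ (∀ o, b' o s + a' o = b s + a) ∧
      ∀ o, Feas N t' (a' o) (b' o) := by
  obtain ⟨T, A, B, h, rfl, hb⟩ := h
  cases T with
  | guess d =>
    left
    obtain ⟨h1, h2, h3⟩ := h
    have hsub : A ∪ B 0 ∪ B 1 ∪ B 2 ⊆ {d} := by
      intro c hc
      simp only [mem_union] at hc
      rw [mem_singleton]
      rcases hc with ((hc | hc) | hc) | hc
      · exact (h3 c 0 (Or.inl hc)).symm
      · exact (h3 c 0 (Or.inr hc)).symm
      · exact (h3 c 1 (Or.inr hc)).symm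
      · exact (h3 c 2 (Or.inr hc)).symm
    have hc := card_le_card hsub
    rw [card_union_of_disjoint, card_union_of_disjoint, card_union_of_disjoint (h1 0),
      card_singleton, hb, hb, hb] at hc
    · exact hc
    · rw [disjoint_union_left]; exact ⟨h1 1, h2 0 1 (by decide)⟩
    · rw [disjoint_union_left, disjoint_union_left]
      exact ⟨⟨h1 2, h2 0 2 (by decide)⟩, h2 1 2 (by decide)⟩
  | weigh s L R l r e =>
    cases t with
    | zero =>
      left
      obtain ⟨-, -, h3⟩ := h
      have hA : A = ∅ := eq_empty_of_forall_notMem fun c hc => h3 c 0 (Or.inl hc)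
      have hB : ∀ i, B i = ∅ := fun i => eq_empty_of_forall_notMem fun c hc => h3 c i (Or.inr hc)
      simp [← hb, hA, hB]
    | succ t =>
      right
      refine ⟨t, s, rfl, fun o => (A ∩ bin L R o).card,
        fun o u => (nextB s (bin L R o) A B u).card, sum_bin L R A, ?_, ?_, ?_⟩
      · intro u hu
        simp only [nextB, if_neg hu]
        rw [sum_bin, hb]
      · intro o
        simp only [nextB, if_true]
        rw [card_union_of_disjoint ((h.1 s).symm.mono_right sdiff_subset), hb, add_assoc,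
          card_sdiff_add_card_inter]
      · intro o
        exact ⟨_, _, _, handles_child h o, rfl, fun _ => rfl⟩

theorem two_mul_add_one_le (t : ℕ) : 2 * t + 1 ≤ 3 ^ t := by
  induction t with
  | zero => simp
  | succ t ih => rw [pow_succ]; omega

theorem two_mul_add_one_lt {t : ℕ} (ht : 2 ≤ t) : 2 * t + 1 < 3 ^ t := by
  induction t, ht using Nat.le_induction with
  | base => norm_num
  | succ t _ ih => rw [pow_succ]; omega

theorem sum_children {t a : ℕ} {b : Fin 3 → ℕ} {s : Fin 3} {a' : Fin 3 → ℕ}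
    {b' : Fin 3 → Fin 3 → ℕ} (h1 : ∑ o, a' o = a) (h2 : ∀ u, u ≠ s → ∑ o, b' o u = b u)
    (h3 : ∀ o, b' o s + a' o = b s + a) :
    ∑ o, ((2 * t + 1) * a' o + b' o 0 + b' o 1 + b' o 2)
      = (2 * (t + 1) + 1) * a + b 0 + b 1 + b 2 + 2 * b s := by
  have k0 := h3 0
  have k1 := h3 1
  have k2 := h3 2
  have j0 := h2 0
  have j1 := h2 1
  have j2 := h2 2
  simp only [Fin.sum_univ_three] at *
  have e : (2 * t + 1) * a' 0 + (2 * t + 1) * a' 1 + (2 * t + 1) * a' 2 + 2 * a
      = (2 * (t + 1) + 1) * a := by rw [← h1]; ring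
  fin_cases s
  · have := j1 (by decide); have := j2 (by decide)
    simp only [Fin.zero_eta] at *
    omega
  · have := j0 (by decide); have := j2 (by decide)
    simp only [Fin.mk_one] at *
    omega
  · have := j0 (by decide); have := j1 (by decide)
    simp only [Fin.reduceFinMk] at *
    omega

theorem feas_weight : ∀ {t a : ℕ} {b : Fin 3 → ℕ}, Feas N t a b →
    (2 * t + 1) * a + b 0 + b 1 + b 2 ≤ 3 ^ t := by
  intro t
  induction t with
  | zero =>
    intro a b h
    rcases feas_cases h with h | ⟨t', s, h, -⟩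
    · simpa using h
    · omega
  | succ t ih =>
    intro a b h
    rcases feas_cases h with h | ⟨t', s, h, a', b', h1, h2, h3, h4⟩
    · have := two_mul_add_one_le (t + 1)
      have ha : a = 0 ∨ a = 1 := by omega
      rcases ha with rfl | rfl <;> omega
    · obtain rfl : t = t' := by omega
      have hs := sum_children (t := t) h1 h2 h3
      have := ih (h4 0)
      have := ih (h4 1)
      have := ih (h4 2)
      rw [Fin.sum_univ_three] at hs
      rw [pow_succ]
      omega

/-- Positions that meet the counting bound with equality. -/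
def Perf (N t a : ℕ) (b : Fin 3 → ℕ) : Prop :=
  Feas N t a b ∧ (2 * t + 1) * a + b 0 + b 1 + b 2 = 3 ^ t

theorem perf_step {t a : ℕ} {b : Fin 3 → ℕ} (ht : 1 ≤ t) (h : Perf N (t + 1) a b) :
    ∃ s, b s = 0 ∧ ∃ (a' : Fin 3 → ℕ) (b' : Fin 3 → Fin 3 → ℕ),
      ∑ o, a' o = a ∧ (∀ u, u ≠ s → ∑ o, b' o u = b u) ∧ (∀ o, b' o s + a' o = a) ∧
      ∀ o, Perf N t (a' o) (b' o) := by
  obtain ⟨hf, hw⟩ := h
  rcases feas_cases hf with h | ⟨t', s, h, a', b', h1, h2, h3, h4⟩
  · have := two_mul_add_one_lt (t := t + 1) (by omega)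
    have ha : a = 0 ∨ a = 1 := by omega
    rcases ha with rfl | rfl <;> omega
  · obtain rfl : t = t' := by omega
    have hs := sum_children (t := t) h1 h2 h3
    have w0 := feas_weight (h4 0)
    have w1 := feas_weight (h4 1)
    have w2 := feas_weight (h4 2)
    rw [Fin.sum_univ_three] at hs
    rw [pow_succ] at hw
    have hbs : b s = 0 := by omega
    refine ⟨s, hbs, a', b', h1, h2, fun o => by rw [h3 o, hbs, zero_add], fun o => ⟨h4 o, ?_⟩⟩
    fin_cases o
    · simp only [Fin.zero_eta]; omega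
    · simp only [Fin.mk_one]; omega
    · simp only [Fin.reduceFinMk]; omega

theorem sum3_of_ne (b : Fin 3 → ℕ) {s u v : Fin 3} (hsu : s ≠ u) (hsv : s ≠ v) (huv : u ≠ v) :
    b 0 + b 1 + b 2 = b s + b u + b v := by
  fin_cases s <;> fin_cases u <;> fin_cases v <;> simp at hsu hsv huv ⊢ <;> omega

theorem third {s u : Fin 3} (h : s ≠ u) : ∃ v, s ≠ v ∧ u ≠ v ∧ ∀ z, z = s ∨ z = u ∨ z = v := by
  revert s u; decide

theorem not_dvd_aux {q c m : ℕ} (hq : q % 3 ≠ 0) (hc0 : 0 < c) (hc : c < q) {z : ℕ}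
    (h : q * z = c * 3 ^ m) : False := by
  have hcop : Nat.Coprime q (3 ^ m) := by
    apply Nat.Coprime.pow_right
    rw [Nat.coprime_comm, Nat.Prime.coprime_iff_not_dvd Nat.prime_three]
    omega
  have : q ∣ c := hcop.dvd_of_dvd_mul_right ⟨z, h.symm⟩
  exact absurd (Nat.le_of_dvd hc0 this) (by omega)

/-- The congruence forced on each position after two perfect weighings. -/
theorem level2 {t I m a : ℕ} {b : Fin 3 → ℕ} {s u v : Fin 3} (hI : 2 ≤ I) (ht : 2 * t = 9 * I + 2)
    (hP : 3 ^ t = (I + 1) * 3 ^ m) (hsu : s ≠ u) (hsv : s ≠ v) (huv : u ≠ v)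
    (hall : ∀ z, z = s ∨ z = u ∨ z = v) (hv : b v = 0) (hu : b u + a = 3 ^ m)
    (hs : b s ≤ 2 * 3 ^ m) (h : Perf N (t + 1) a b) :
    ∃ z, (9 * I + 3) * a = (9 * I + 2) * z + (2 * I + 1) * 3 ^ m := by
  set M := 3 ^ m with hM
  have hMpos : 0 < M := by positivity
  have hw := h.2
  rw [add_assoc, add_assoc, ← add_assoc (b 0), sum3_of_ne b hsu hsv huv, pow_succ, hP, hv,
    show 2 * (t + 1) + 1 = 9 * I + 5 by omega] at hw
  have hw' : (9 * I + 4) * a + b s = (3 * I + 2) * M := by nlinarith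
  have hs0 : b s ≠ 0 := by
    intro h0
    rw [h0, add_zero] at hw'
    exact not_dvd_aux (by omega) (by omega) (by omega) hw'
  have hu0 : b u ≠ 0 := by
    intro h0
    have : a = M := by omega
    rw [this] at hw'
    nlinarith
  obtain ⟨s3, hs3, a', b', h1, h2, h3, h4⟩ := perf_step (by omega) h
  obtain rfl : s3 = v := by
    rcases hall s3 with rfl | rfl | rfl
    · exact absurd hs3 hs0
    · exact absurd hs3 hu0
    · rfl
  have hchild : ∀ o, (9 * I + 2) * a' o + b' o s + b' o u + a = (I + 1) * M ∧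
      (b' o s = 0 ∨ b' o u = 0) := by
    intro o
    have hwo := (h4 o).2
    rw [add_assoc, add_assoc, ← add_assoc (b' o 0), sum3_of_ne (b' o) hsu hsv huv, hP,
      show 2 * t + 1 = 9 * I + 3 by omega] at hwo
    have h3o := h3 o
    have e1 : (9 * I + 2) * a' o + b' o s + b' o u + a = (I + 1) * M := by nlinarith
    refine ⟨e1, ?_⟩
    obtain ⟨t', rfl⟩ : ∃ t', t = t' + 1 := ⟨t - 1, by omega⟩
    obtain ⟨s4, hs4, -⟩ := perf_step (by omega) (h4 o)
    rcases hall s4 with rfl | rfl | rfl
    · exact Or.inl hs4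
    · exact Or.inr hs4
    · exfalso
      have e2 : a' o = a := by omega
      rw [e2] at e1
      have e3 : (9 * I + 3) * a ≤ (I + 1) * M := by nlinarith
      have e4 : 3 * I * M ≤ (9 * I + 4) * a := by nlinarith
      have e5 : (9 * I + 3) * (3 * I) * M ≤ (9 * I + 4) * (I + 1) * M := by nlinarith
      have e6 := Nat.le_of_mul_le_mul_right e5 hMpos
      nlinarith
  have ks := h2 s hsv
  have ku := h2 u huv
  rw [Fin.sum_univ_three] at ks ku
  have key : (∃ o, b' o s = 0 ∧ b' o u = b u) ∨ (∃ o, b' o u = 0 ∧ b' o s = b s) := by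
    have c0 := (hchild 0).2
    have c1 := (hchild 1).2
    have c2 := (hchild 2).2
    rcases c0 with c0 | c0 <;> rcases c1 with c1 | c1 <;> rcases c2 with c2 | c2
    · omega
    · exact Or.inr ⟨2, c2, by omega⟩
    · exact Or.inr ⟨1, c1, by omega⟩
    · exact Or.inl ⟨0, c0, by omega⟩
    · exact Or.inr ⟨0, c0, by omega⟩
    · exact Or.inl ⟨1, c1, by omega⟩
    · exact Or.inl ⟨2, c2, by omega⟩
    · omega
  rcases key with ⟨o, k1, k2⟩ | ⟨o, k1, k2⟩
  · exfalso
    have e1 := (hchild o).1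
    rw [k1, k2] at e1
    have e2 : (9 * I + 2) * a' o = I * M := by nlinarith
    exact not_dvd_aux (by omega) (by omega) (by omega) e2
  · have e1 := (hchild o).1
    rw [k1, k2] at e1
    exact ⟨a' o, by nlinarith⟩

theorem not_perf {t I m : ℕ} (hI : 2 ≤ I) (ht : 2 * t = 9 * I + 2)
    (hP : 3 ^ t = (I + 1) * 3 ^ m) : ¬ Perf N (t + 3) (3 * 3 ^ m) (fun _ => 0) := by
  intro h
  set M := 3 ^ m with hM
  have hMpos : 0 < M := by positivity
  obtain ⟨s, -, a1, b1, -, h2, h3, h4⟩ := perf_step (by omega) h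
  have hz : ∀ u, u ≠ s → b1 0 u = 0 := by
    intro u hu
    have := h2 u hu
    rw [Fin.sum_univ_three] at this
    omega
  have hp := h4 0
  have h30 := h3 0
  have ha1 : a1 0 = M := by
    obtain ⟨u, hsu⟩ : ∃ u : Fin 3, s ≠ u := by
      clear * -; revert s; decide
    obtain ⟨v, hsv, huv, -⟩ := third hsu
    have hw := hp.2
    rw [add_assoc, add_assoc, ← add_assoc (b1 0 0), sum3_of_ne (b1 0) hsu hsv huv, hz u hsu.symm,
      hz v hsv.symm, pow_succ, pow_succ, hP, show 2 * (t + 2) + 1 = 9 * I + 7 by omega] at hw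
    have e : (9 * I + 6) * a1 0 = (9 * I + 6) * M := by nlinarith
    exact Nat.eq_of_mul_eq_mul_left (by omega) e
  obtain ⟨u, hu, a2, b2, g1, g2, g3, g4⟩ := perf_step (by omega) hp
  have hsu : s ≠ u := by
    rintro rfl
    omega
  obtain ⟨v, hsv, huv, hall⟩ := third hsu
  have gs := g2 s hsu
  have gv := g2 v huv.symm
  rw [hz v hsv.symm] at gv
  rw [Fin.sum_univ_three] at gs gv g1
  obtain ⟨z0, e0⟩ := level2 (m := m) hI ht hP hsu hsv huv hall (by omega) (by rw [g3 0, ha1])
    (by omega) (g4 0)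
  obtain ⟨z1, e1⟩ := level2 (m := m) hI ht hP hsu hsv huv hall (by omega) (by rw [g3 1, ha1])
    (by omega) (g4 1)
  obtain ⟨z2, e2⟩ := level2 (m := m) hI ht hP hsu hsv huv hall (by omega) (by rw [g3 2, ha1])
    (by omega) (g4 2)
  rw [← hM] at e0 e1 e2
  have e : (9 * I + 2) * (z0 + z1 + z2) = (3 * I) * M := by
    have : (9 * I + 3) * (a2 0 + a2 1 + a2 2) = (9 * I + 3) * M := by rw [g1, ha1]
    nlinarith
  exact not_dvd_aux (by omega) (by omega) (by omega) e

theorem lower_bound {n k : ℕ} (hn : 2 ≤ n) (T : Strategy (3 ^ (2 * n)))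
    (hT : ∀ c b, T.Finds c b k) : 3 ^ (2 * n) * (2 * k + 1) < 3 ^ k := by
  have hf : Feas (3 ^ (2 * n)) k (3 ^ (2 * n)) (fun _ => 0) :=
    ⟨T, univ, fun _ => ∅, ⟨by simp, by simp, fun c b _ => hT c b⟩, by simp, by simp⟩
  have hw := feas_weight hf
  simp only [add_zero] at hw
  rcases hw.lt_or_eq with h | h
  · rwa [mul_comm]
  exfalso
  have hk : 2 * n ≤ k := by
    by_contra hlt
    have : 3 ^ k < 3 ^ (2 * n) := Nat.pow_lt_pow_right (by norm_num) (by omega)
    nlinarith [pow_pos (show 0 < 3 by norm_num) (2 * n)]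
  obtain ⟨j, rfl⟩ : ∃ j, k = 2 * n + j := ⟨k - 2 * n, by omega⟩
  have hj : 2 * (2 * n + j) + 1 = 3 ^ j := by
    rw [pow_add, mul_comm] at h
    exact Nat.eq_of_mul_eq_mul_left (by positivity) h
  have hj3 : 3 ≤ j := by
    by_contra hlt
    have : j ≤ 2 := by omega
    interval_cases j <;> omega
  obtain ⟨i, rfl⟩ : ∃ i, j = i + 3 := ⟨j - 3, by omega⟩
  obtain ⟨m, hm⟩ : ∃ m, 2 * n = m + 1 := ⟨2 * n - 1, by omega⟩
  have hpos : 0 < 3 ^ i := by positivity
  obtain ⟨I, hI⟩ : ∃ I, I + 1 = 3 * 3 ^ i := ⟨3 * 3 ^ i - 1, by omega⟩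
  have hj' : 3 ^ (i + 3) = 27 * 3 ^ i := by ring
  refine not_perf (N := 3 ^ (2 * n)) (t := 2 * n + i) (I := I) (m := m) (by omega) (by omega) ?_
    ⟨?_, ?_⟩
  · rw [hI, hm]; ring
  · have : 3 * 3 ^ m = 3 ^ (2 * n) := by rw [hm]; ring
    rw [this]
    exact hf
  · have : 3 * 3 ^ m = 3 ^ (2 * n) := by rw [hm]; ring
    rw [this]
    simpa [add_assoc] using h

end Pool.Agent.MP_a3b474_co
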